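import Mathlib

/-!
# The sum of a module and its dual
-/

set_option linter.unusedSectionVars false

namespace Pool.Agent.Y71.OD2

open Module LinearMap

noncomputable section

section basic

variable {K : Type} [Field K] {U : Type} [AddCommGroup U] [Module K U]

/-- The sum with the dual. -/
def VV (K : Type) [Field K] (U : Type) [AddCommGroup U] [Module K U] : Type := U × Dual K U

instance instAG : AddCommGroup (VV K U) := inferInstanceAs (AddCommGroup (U × Dual K U))

instance instMd : Module K (VV K U) := inferInstanceAs (Module K (U × Dual K U))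

instance instFD [FiniteDimensional K U] : FiniteDimensional K (VV K U) :=
  inferInstanceAs (FiniteDimensional K (U × Dual K U))

/-- The first component. -/
def fs : VV K U →ₗ[K] U where
  toFun v := v.1
  map_add' _ _ := rfl
  map_smul' _ _ := rfl

/-- The second component. -/
def sn : VV K U →ₗ[K] Dual K U where
  toFun v := v.2
  map_add' _ _ := rfl
  map_smul' _ _ := rfl

/-- Pairs. -/
def mk (u : U) (f : Dual K U) : VV K U := (u, f)

theorem fs_mk (u : U) (f : Dual K U) : fs (mk u f) = u := rfl

theorem sn_mk (u : U) (f : Dual K U) : sn (mk u f) = f := rfl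

theorem vext {v w : VV K U} (h1 : fs v = fs w) (h2 : sn v = sn w) : v = w := Prod.ext h1 h2

theorem mk_eta (v : VV K U) : mk (fs v) (sn v) = v := rfl

/-- The first inclusion. -/
def il : U →ₗ[K] VV K U where
  toFun u := mk u 0
  map_add' a b := by
    refine vext ?_ ?_
    · rw [map_add, fs_mk, fs_mk, fs_mk]
    · rw [map_add, sn_mk, sn_mk, sn_mk, add_zero]
  map_smul' c a := by
    refine vext ?_ ?_
    · rw [map_smul, fs_mk, fs_mk]
      rfl
    · rw [map_smul, sn_mk, sn_mk, smul_zero]

/-- The second inclusion. -/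
def ir : Dual K U →ₗ[K] VV K U where
  toFun f := mk 0 f
  map_add' a b := by
    refine vext ?_ ?_
    · rw [map_add, fs_mk, fs_mk, fs_mk, add_zero]
    · rw [map_add, sn_mk, sn_mk, sn_mk]
  map_smul' c a := by
    refine vext ?_ ?_
    · rw [map_smul, fs_mk, fs_mk, smul_zero]
    · rw [map_smul, sn_mk, sn_mk]
      rfl

theorem fs_il (u : U) : fs (il u : VV K U) = u := rfl

theorem sn_il (u : U) : sn (il u : VV K U) = 0 := rfl

theorem fs_ir (f : Dual K U) : fs (ir f) = 0 := rfl

theorem sn_ir (f : Dual K U) : sn (ir f) = f := rfl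

theorem sum_eq (v : VV K U) : v = il (fs v) + ir (sn v) := by
  refine vext ?_ ?_
  · rw [map_add, fs_il, fs_ir, add_zero]
  · rw [map_add, sn_il, sn_ir, zero_add]

/-- The action on the sum with the dual. -/
def jj : End K U →ₗ[K] End K (VV K U) where
  toFun y := il ∘ₗ y ∘ₗ fs - ir ∘ₗ Module.Dual.transpose (R := K) y ∘ₗ sn
  map_add' y z := by
    rw [map_add, LinearMap.add_comp, LinearMap.comp_add, LinearMap.add_comp, LinearMap.comp_add]
    abel
  map_smul' c y := by
    rw [map_smul, LinearMap.smul_comp, LinearMap.comp_smul, LinearMap.smul_comp,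
      LinearMap.comp_smul, RingHom.id_apply, smul_sub]

theorem jj_apply (y : End K U) (v : VV K U) :
    jj y v = il (y (fs v)) - ir ((sn v) ∘ₗ y) := rfl

theorem jj1 (y : End K U) (v : VV K U) : fs (jj y v) = y (fs v) := by
  rw [jj_apply, map_sub, fs_il, fs_ir, sub_zero]

theorem jj2 (y : End K U) (v : VV K U) : sn (jj y v) = -((sn v) ∘ₗ y) := by
  rw [jj_apply, map_sub, sn_il, sn_ir, zero_sub]

theorem jj2' (y : End K U) (v : VV K U) (u : U) : sn (jj y v) u = -(sn v (y u)) := by
  rw [jj2]
  rfl

/-- The projection. -/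
def ee : End K (VV K U) := il ∘ₗ fs

theorem ee1 (v : VV K U) : fs (ee v) = fs v := rfl

theorem ee2 (v : VV K U) : sn (ee v) = 0 := rfl

theorem hext {a b : End K (VV K U)} (h1 : ∀ v, fs (a v) = fs (b v))
    (h2 : ∀ v u, sn (a v) u = sn (b v) u) : a = b :=
  LinearMap.ext fun v => vext (h1 v) (LinearMap.ext fun u => h2 v u)

theorem jj_br (y z : End K U) :
    (jj (y * z - z * y) : End K (VV K U)) = jj y * jj z - jj z * jj y := by
  refine hext (fun v => ?_) fun v u => ?_
  · rw [jj1, LinearMap.sub_apply, LinearMap.sub_apply, map_sub, Module.End.mul_apply,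
      Module.End.mul_apply, Module.End.mul_apply, Module.End.mul_apply, jj1, jj1, jj1, jj1]
  · rw [jj2', LinearMap.sub_apply, LinearMap.sub_apply, map_sub, map_sub, Module.End.mul_apply,
      Module.End.mul_apply, Module.End.mul_apply, Module.End.mul_apply, LinearMap.sub_apply,
      jj2', jj2', jj2', jj2']
    ring

theorem jj_sq (D : End K U) (hD : D * D = 1) : (jj D * jj D : End K (VV K U)) = 1 := by
  have h1 : ∀ u, D (D u) = u := fun u => LinearMap.congr_fun hD u
  refine hext (fun v => ?_) fun v u => ?_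
  · rw [Module.End.mul_apply, Module.End.one_apply, jj1, jj1, h1]
  · rw [Module.End.mul_apply, Module.End.one_apply, jj2', jj2', neg_neg, h1]

theorem ee_idem : (ee * ee : End K (VV K U)) = ee := rfl

theorem ee_comm (y : End K U) : (ee * jj y : End K (VV K U)) = jj y * ee := by
  refine hext (fun v => ?_) fun v u => ?_
  · rw [Module.End.mul_apply, Module.End.mul_apply, jj1, ee1, ee1, jj1]
  · rw [Module.End.mul_apply, Module.End.mul_apply, jj2', ee2, ee2, LinearMap.zero_apply,
      LinearMap.zero_apply, neg_zero]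

theorem ee_comm' (y : End K U) :
    ((1 - ee) * jj y : End K (VV K U)) = jj y * (1 - ee) := by
  rw [sub_mul, mul_sub, one_mul, mul_one, ee_comm]

/-- The form. -/
def om : VV K U →ₗ[K] VV K U →ₗ[K] K :=
  LinearMap.mk₂ K (fun v w => sn w (fs v) - sn v (fs w))
    (fun a b w => by
      rw [map_add, map_add, map_add, LinearMap.add_apply]
      ring)
    (fun c a w => by
      rw [map_smul, map_smul, map_smul, LinearMap.smul_apply, smul_eq_mul, smul_eq_mul,
        smul_eq_mul]
      ring)
    (fun v a b => by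
      rw [map_add, map_add, map_add, LinearMap.add_apply]
      ring)
    (fun c v a => by
      rw [map_smul, map_smul, map_smul, LinearMap.smul_apply, smul_eq_mul, smul_eq_mul,
        smul_eq_mul]
      ring)

theorem om_apply (v w : VV K U) : om v w = sn w (fs v) - sn v (fs w) := rfl

theorem om_nd (w : VV K U) (h : ∀ v, om v w = 0) : w = 0 := by
  refine vext ?_ ?_
  · rw [map_zero]
    refine (Module.forall_dual_apply_eq_zero_iff K (fs w)).1 fun f => ?_
    have h1 := h (ir f)
    rw [om_apply, fs_ir, sn_ir, map_zero, zero_sub, neg_eq_zero] at h1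
    exact h1
  · rw [map_zero]
    refine LinearMap.ext fun u => ?_
    have h1 := h (il u)
    rw [om_apply, fs_il, sn_il, LinearMap.zero_apply, sub_zero] at h1
    exact h1

theorem om_jj (y : End K U) (v w : VV K U) : om (jj y v) w = om v ((-jj y) w) := by
  rw [LinearMap.neg_apply, map_neg, om_apply, om_apply, jj1, jj1, jj2', jj2']
  ring

theorem om_ee (v w : VV K U) :
    om (ee v) w = om v ((1 - ee : End K (VV K U)) w) := by
  rw [LinearMap.sub_apply, Module.End.one_apply, om_apply, om_apply, ee1, ee2, map_sub, map_sub,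
    ee1, ee2, LinearMap.zero_apply, sub_zero, sub_zero, sub_self, map_zero, sub_zero]

theorem il_inj : Function.Injective (il : U →ₗ[K] VV K U) := fun a b hab => by
  have h1 := congrArg fs hab
  rwa [fs_il, fs_il] at h1

theorem map_inl_finrank (W : Submodule K U) :
    finrank K (W.map (il : U →ₗ[K] VV K U)) = finrank K W :=
  (LinearEquiv.finrank_eq (Submodule.equivMapOfInjective _ il_inj W)).symm

theorem rk_prod (N : End K U) :
    finrank K (LinearMap.range (il ∘ₗ N ∘ₗ fs : End K (VV K U))) =
      finrank K (LinearMap.range N) := by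
  have h1 : LinearMap.range (il ∘ₗ N ∘ₗ fs : End K (VV K U)) =
      (LinearMap.range N).map (il : U →ₗ[K] VV K U) := by
    ext v
    constructor
    · rintro ⟨w, rfl⟩
      exact ⟨N (fs w), ⟨fs w, rfl⟩, rfl⟩
    · rintro ⟨_, ⟨u, rfl⟩, rfl⟩
      exact ⟨il u, rfl⟩
  rw [h1, map_inl_finrank]

variable [FiniteDimensional K U]

theorem trace_jj (y z : End K U) :
    trace K (VV K U) (jj y * jj z) = 2 * trace K U (y * z) := by
  have h1 : (jj y * jj z : End K (VV K U)) = il ∘ₗ (y * z) ∘ₗ fs +
      ir ∘ₗ Module.Dual.transpose (R := K) (z * y) ∘ₗ sn := by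
    refine hext (fun v => ?_) fun v u => ?_
    · rw [Module.End.mul_apply, jj1, jj1, LinearMap.add_apply, map_add]
      change y (z (fs v)) = y (z (fs v)) + 0
      rw [add_zero]
    · rw [Module.End.mul_apply, jj2', jj2', LinearMap.add_apply, map_add, neg_neg]
      change sn v (z (y u)) = 0 + sn v (z (y u))
      rw [zero_add]
  have t1 : trace K (VV K U) (il ∘ₗ (y * z) ∘ₗ fs) = trace K U (y * z) := by
    have h2 : (((y * z) ∘ₗ fs) ∘ₗ il : End K U) = y * z := rfl
    rw [← LinearMap.trace_comp_comm' (il : U →ₗ[K] VV K U) ((y * z) ∘ₗ fs), h2]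
  have t2 : trace K (VV K U) (ir ∘ₗ Module.Dual.transpose (R := K) (z * y) ∘ₗ sn) =
      trace K U (z * y) := by
    have h2 : ((Module.Dual.transpose (R := K) (z * y) ∘ₗ sn) ∘ₗ ir : End K (Dual K U)) =
      Module.Dual.transpose (R := K) (z * y) := rfl
    rw [← LinearMap.trace_comp_comm' (ir : Dual K U →ₗ[K] VV K U)
      (Module.Dual.transpose (R := K) (z * y) ∘ₗ sn), h2, LinearMap.trace_transpose']
  rw [h1, map_add, t1, t2, LinearMap.trace_mul_comm K z y]
  ring

/-- Schur. -/
theorem schur [IsAlgClosed K] (L : Submodule K (End K U))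
    (hirr : ∀ W : Submodule K U, (∀ y ∈ L, ∀ w ∈ W, y w ∈ W) → W = ⊥ ∨ W = ⊤) (c : End K U)
    (hc : ∀ y ∈ L, c * y = y * c) : ∃ s : K, c = s • (1 : End K U) := by
  rcases subsingleton_or_nontrivial U with hV | hV
  · exact ⟨0, LinearMap.ext fun v => Subsingleton.elim _ _⟩
  obtain ⟨s, hs⟩ := Module.End.exists_eigenvalue c
  refine ⟨s, ?_⟩
  rcases hirr (c.eigenspace s) (fun y hy w hw => by
    rw [Module.End.mem_eigenspace_iff] at hw ⊢
    rw [← Module.End.mul_apply, hc y hy, Module.End.mul_apply, hw, map_smul]) with h1 | h1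
  · exact absurd h1 hs
  · refine LinearMap.ext fun v => ?_
    have h2 : v ∈ c.eigenspace s := by rw [h1]; trivial
    rw [Module.End.mem_eigenspace_iff] at h2
    rw [h2]
    rfl

/-- The dual is irreducible. -/
theorem irrD {L : Submodule K (End K U)}
    (hirr : ∀ W : Submodule K U, (∀ y ∈ L, ∀ w ∈ W, y w ∈ W) → W = ⊥ ∨ W = ⊤)
    (W : Submodule K (Dual K U)) (hW : ∀ y ∈ L, ∀ f ∈ W, f ∘ₗ y ∈ W) : W = ⊥ ∨ W = ⊤ := by
  have h0 : (Submodule.dualCoannihilator W).dualAnnihilator = W :=
    Subspace.dualCoannihilator_dualAnnihilator_eq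
  rcases hirr (Submodule.dualCoannihilator W) (fun y hy w hw => by
    rw [Submodule.mem_dualCoannihilator] at hw ⊢
    intro f hf
    exact hw _ (hW y hy f hf)) with h1 | h1
  · right
    rw [← h0, h1, Submodule.dualAnnihilator_bot]
  · left
    rw [← h0, h1, Submodule.dualAnnihilator_top]

section com

variable {L : Submodule K (End K U)}
  (hirr : ∀ W : Submodule K U, (∀ y ∈ L, ∀ w ∈ W, y w ∈ W) → W = ⊥ ∨ W = ⊤)
  (hB : ∀ B : U →ₗ[K] U →ₗ[K] K, (∀ y ∈ L, ∀ u v, B (y u) v + B u (y v) = 0) → B = 0)

theorem jj_l (y : End K U) (u : U) : jj y (il u) = (il (y u) : VV K U) := by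
  rw [jj_apply, fs_il, sn_il, LinearMap.zero_comp, map_zero, sub_zero]

theorem jj_r (y : End K U) (f : Dual K U) : jj y (ir f) = -ir (f ∘ₗ y) := by
  rw [jj_apply, fs_ir, sn_ir, map_zero, map_zero, zero_sub]

include hirr hB in
/-- The commutant. -/
theorem com [IsAlgClosed K] [Nontrivial U] (c : End K (VV K U))
    (hc : ∀ y ∈ L, c * jj y = jj y * c) : ∃ a b : K, c = a • ee + b • (1 - ee) := by
  have hc' : ∀ y ∈ L, ∀ v, c (jj y v) = jj y (c v) := fun y hy v =>
    LinearMap.congr_fun (hc y hy) v
  -- the four blocks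
  obtain ⟨c11, e11⟩ : ∃ c11 : End K U, ∀ u, c11 u = fs (c (il u)) := ⟨fs ∘ₗ c ∘ₗ il, fun _ => rfl⟩
  obtain ⟨c21, e21⟩ : ∃ c21 : U →ₗ[K] Dual K U, ∀ u, c21 u = sn (c (il u)) :=
    ⟨sn ∘ₗ c ∘ₗ il, fun _ => rfl⟩
  obtain ⟨c12, e12⟩ : ∃ c12 : Dual K U →ₗ[K] U, ∀ f, c12 f = fs (c (ir f)) :=
    ⟨fs ∘ₗ c ∘ₗ ir, fun _ => rfl⟩
  obtain ⟨c22, e22⟩ : ∃ c22 : End K (Dual K U), ∀ f, c22 f = sn (c (ir f)) :=
    ⟨sn ∘ₗ c ∘ₗ ir, fun _ => rfl⟩
  have h21 : c21 = 0 := hB c21 fun y hy u v => by
    rw [e21, e21, ← jj_l, hc' y hy, jj2', neg_add_cancel]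
  have k12 : ∀ y ∈ L, ∀ f : Dual K U, c12 (f ∘ₗ y) = -y (c12 f) := by
    intro y hy f
    have h1 := congrArg fs (hc' y hy (ir f))
    rw [jj_r, map_neg, map_neg, jj1, ← e12, ← e12] at h1
    rw [← h1, neg_neg]
  have k22 : ∀ y ∈ L, ∀ f : Dual K U, c22 (f ∘ₗ y) = (c22 f) ∘ₗ y := by
    intro y hy f
    have h1 := congrArg sn (hc' y hy (ir f))
    rw [jj_r, map_neg, map_neg, jj2, ← e22, ← e22, neg_inj] at h1
    exact h1
  have h12 : c12 = 0 := by
    rcases irrD hirr (LinearMap.ker c12) (fun y hy f hf => by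
      rw [LinearMap.mem_ker] at hf ⊢
      rw [k12 y hy, hf, map_zero, neg_zero]) with h1 | h1
    · exfalso
      have hinj : Function.Injective c12 := LinearMap.ker_eq_bot.1 h1
      let e := LinearEquiv.ofInjectiveOfFinrankEq c12 hinj Subspace.dual_finrank_eq
      have he : ∀ f, e f = c12 f := fun f => rfl
      have h2 : (e.symm : U →ₗ[K] Dual K U) = 0 := by
        refine hB (e.symm : U →ₗ[K] Dual K U) fun y hy u v => ?_
        have h3 : e.symm (y u) = -((e.symm u) ∘ₗ y) := by
          rw [LinearEquiv.symm_apply_eq, he, map_neg, k12 y hy, neg_neg, ← he,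
            LinearEquiv.apply_symm_apply]
        change (e.symm (y u)) v + (e.symm u) (y v) = 0
        rw [h3]
        change -((e.symm u) (y v)) + (e.symm u) (y v) = 0
        rw [neg_add_cancel]
      obtain ⟨u, hu⟩ := exists_ne (0 : U)
      apply hu
      have h3 : e.symm u = 0 := LinearMap.congr_fun h2 u
      rw [← e.apply_symm_apply u, h3, map_zero]
    · exact LinearMap.ker_eq_top.1 h1
  obtain ⟨s, hs⟩ := schur L hirr c11 (fun y hy => by
    refine LinearMap.ext fun u => ?_
    rw [Module.End.mul_apply, Module.End.mul_apply, e11, e11, ← jj_l, hc' y hy, jj1])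
  obtain ⟨t, ht⟩ := schur (L.map (Module.Dual.transpose (R := K) (M := U) (M' := U)))
    (fun W hW => irrD hirr W fun y hy f hf => hW _ ⟨y, hy, rfl⟩ f hf) c22 (by
      rintro _ ⟨y, hy, rfl⟩
      refine LinearMap.ext fun f => ?_
      exact k22 y hy f)
  refine ⟨s, t, LinearMap.ext fun v => vext ?_ ?_⟩
  · have h1 : fs (c v) = c11 (fs v) + c12 (sn v) := by
      rw [e11, e12, ← map_add, ← map_add, ← sum_eq]
    rw [h1, hs, h12, LinearMap.zero_apply, add_zero, LinearMap.add_apply, LinearMap.smul_apply,
      LinearMap.smul_apply, LinearMap.smul_apply, LinearMap.sub_apply, Module.End.one_apply,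
      Module.End.one_apply, map_add, map_smul, map_smul, map_sub, ee1, sub_self, smul_zero,
      add_zero]
  · have h1 : sn (c v) = c21 (fs v) + c22 (sn v) := by
      rw [e21, e22, ← map_add, ← map_add, ← sum_eq]
    rw [h1, ht, h21, LinearMap.zero_apply, zero_add, LinearMap.add_apply, LinearMap.smul_apply,
      LinearMap.smul_apply, LinearMap.smul_apply, LinearMap.sub_apply, Module.End.one_apply,
      Module.End.one_apply, map_add, map_smul, map_smul, map_sub, ee2, smul_zero, sub_zero,
      zero_add]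

include hirr hB in
/-- Complete reducibility. -/
theorem cred [Nontrivial U] (M : Submodule K (VV K U))
    (hM : ∀ y ∈ L, ∀ w ∈ M, jj y w ∈ M) :
    ∃ π : End K (VV K U), (∀ y ∈ L, π * jj y = jj y * π) ∧ (∀ w, π w ∈ M) ∧
      ∀ w ∈ M, π w = w := by
  have hr : M.comap ir = ⊥ ∨ M.comap (ir : Dual K U →ₗ[K] VV K U) = ⊤ :=
    irrD hirr _ fun y hy f hf => by
      rw [Submodule.mem_comap] at hf ⊢
      have h2 := M.neg_mem (hM y hy _ hf)
      rwa [jj_r, neg_neg] at h2
  have hl : M.comap il = ⊥ ∨ M.comap (il : U →ₗ[K] VV K U) = ⊤ :=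
    hirr _ fun y hy u hu => by
      rw [Submodule.mem_comap] at hu ⊢
      rw [← jj_l]
      exact hM y hy _ hu
  have h1e : ∀ w : VV K U, (1 - ee : End K (VV K U)) w = ir (sn w) := fun w => by
    rw [LinearMap.sub_apply, Module.End.one_apply]
    refine vext ?_ ?_
    · rw [map_sub, ee1, sub_self, fs_ir]
    · rw [map_sub, ee2, sub_zero, sn_ir]
  rcases hl with h1 | h1
  · rcases hr with h2 | h2
    · -- the graph
      have hinj : ∀ w ∈ M, fs w = 0 → w = 0 := by
        intro w hw hw0
        have h3 : sn w ∈ M.comap (ir : Dual K U →ₗ[K] VV K U) := by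
          rw [Submodule.mem_comap]
          have h4 : ir (sn w) = w := by
            conv_rhs => rw [sum_eq w, hw0, map_zero, zero_add]
          rw [h4]
          exact hw
        rw [h2, Submodule.mem_bot] at h3
        refine vext ?_ ?_
        · rw [hw0, map_zero]
        · rw [h3, map_zero]
      rcases hirr (M.map (fs : VV K U →ₗ[K] U))
        (by
          rintro y hy _ ⟨w, hw, rfl⟩
          exact ⟨_, hM y hy _ hw, jj1 y w⟩) with h3 | h3
      · refine ⟨0, fun y _ => by rw [zero_mul, mul_zero], fun w => M.zero_mem, fun w hw => ?_⟩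
        have h4 : fs w ∈ M.map (fs : VV K U →ₗ[K] U) := ⟨w, hw, rfl⟩
        rw [h3, Submodule.mem_bot] at h4
        rw [hinj w hw h4, map_zero]
      · exfalso
        have hex : ∀ u : U, ∃ w ∈ M, fs w = u := by
          intro u
          have h4 : u ∈ M.map (fs : VV K U →ₗ[K] U) := by rw [h3]; trivial
          exact h4
        choose g hg1 hg2 using hex
        have hgu : ∀ u, ∀ w ∈ M, fs w = u → w = g u := by
          intro u w hw hwu
          rw [← sub_eq_zero]
          refine hinj _ (M.sub_mem hw (hg1 u)) ?_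
          rw [map_sub, hwu, hg2, sub_self]
        let φ : U →ₗ[K] Dual K U :=
          { toFun := fun u => sn (g u)
            map_add' := fun a b => by
              rw [← map_add, ← hgu (a + b) (g a + g b) (M.add_mem (hg1 a) (hg1 b)) (by
                rw [map_add, hg2, hg2])]
            map_smul' := fun c a => by
              rw [RingHom.id_apply, ← map_smul, ← hgu (c • a) (c • g a) (M.smul_mem _ (hg1 a)) (by
                rw [map_smul, hg2])] }
        have hφ : φ = 0 := hB φ fun y hy u v => by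
          change sn (g (y u)) v + sn (g u) (y v) = 0
          rw [← hgu (y u) (jj y (g u)) (hM y hy _ (hg1 u)) (by rw [jj1, hg2]), jj2',
            neg_add_cancel]
        obtain ⟨u, hu⟩ := exists_ne (0 : U)
        apply hu
        have h5 : u ∈ M.comap (il : U →ₗ[K] VV K U) := by
          rw [Submodule.mem_comap]
          have h6 : g u = il u := by
            refine vext ?_ ?_
            · rw [hg2, fs_il]
            · rw [sn_il]
              exact LinearMap.congr_fun hφ u
          rw [← h6]
          exact hg1 u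
        rwa [h1, Submodule.mem_bot] at h5
    · have hall : ∀ f : Dual K U, ir f ∈ M := fun f => by
        have h3 : f ∈ M.comap (ir : Dual K U →ₗ[K] VV K U) := by rw [h2]; trivial
        exact h3
      refine ⟨1 - ee, fun y _ => ee_comm' y, fun w => ?_, fun w hw => ?_⟩
      · rw [h1e]
        exact hall _
      · have h4 : fs w ∈ M.comap (il : U →ₗ[K] VV K U) := by
          rw [Submodule.mem_comap]
          have h5 : il (fs w) = w - ir (sn w) := by
            conv_rhs => rw [sum_eq w]
            rw [map_add, sn_il, sn_ir, zero_add, add_sub_cancel_right]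
          rw [h5]
          exact M.sub_mem hw (hall _)
        rw [h1, Submodule.mem_bot] at h4
        rw [h1e]
        conv_rhs => rw [sum_eq w, h4, map_zero, zero_add]
  · have hall : ∀ u : U, (il u : VV K U) ∈ M := fun u => by
      have h3 : u ∈ M.comap (il : U →ₗ[K] VV K U) := by rw [h1]; trivial
      exact h3
    rcases hr with h2 | h2
    · refine ⟨ee, fun y _ => ee_comm y, fun w => hall _, fun w hw => ?_⟩
      have h4 : sn w ∈ M.comap (ir : Dual K U →ₗ[K] VV K U) := by
        rw [Submodule.mem_comap]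
        have h5 : ir (sn w) = w - il (fs w) := by
          conv_rhs => rw [sum_eq w]
          rw [map_add, fs_il, fs_ir, add_zero, add_sub_cancel_left]
        rw [h5]
        exact M.sub_mem hw (hall _)
      rw [h2, Submodule.mem_bot] at h4
      refine vext (ee1 w) ?_
      rw [ee2, h4]
    · refine ⟨1, fun y _ => by rw [one_mul, mul_one], fun w => ?_, fun w _ => rfl⟩
      rw [Module.End.one_apply, sum_eq w]
      have h4 : sn w ∈ M.comap (ir : Dual K U →ₗ[K] VV K U) := by rw [h2]; trivial
      exact M.add_mem (hall _) h4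

end com

end basic

end

end Pool.Agent.Y71.OD2
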