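import Mathlib
import Pool.Agent.Y224.OD.Stm2
import Pool.Agent.Y91.G.JGcd
import Pool.Agent.Y442.G.Spin
import Pool.Agent.Y185.G.Self
import Pool.Agent.Y126.JP.Setup
import Pool.Agent.W516.Cartan
import Pool.Agent.Y71.OD2.A

/-!
# Rank one elements of irreducible Lie algebras without invariant bilinear forms
-/

set_option linter.unusedSectionVars false

namespace Pool.Agent.Y71.OD2

open Module LinearMap Pool.Agent.W548.Odd Pool.Agent.Y91.JP Pool.Agent.Y91.G
open Pool.Agent.Y126.JP (adj adj_spec adj_unique adj_trace adj_rk)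
open Pool.Agent.Y224.OD (rkk)

theorem duo_abs {K U V : Type} [Field K] [CharZero K] [IsAlgClosed K] [AddCommGroup U]
    [Module K U] [FiniteDimensional K U] [Nontrivial U] [AddCommGroup V] [Module K V]
    [FiniteDimensional K V]
    (J : End K U →ₗ[K] End K V) (ω : V →ₗ[K] V →ₗ[K] K) (ε : End K V)
    (hnd : ∀ w, (∀ v, ω v w = 0) → w = 0)
    (J_br : ∀ y z, J (y * z - z * y) = J y * J z - J z * J y)
    (J_sq : ∀ D, D * D = 1 → J D * J D = 1)
    (ε_idem : ε * ε = ε) (ε_comm : ∀ y, ε * J y = J y * ε)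
    (ω_J : ∀ y v w, ω (J y v) w = ω v ((-J y) w))
    (ω_ε : ∀ v w, ω (ε v) w = ω v ((1 - ε) w))
    (tr : ∀ y z, trace K V (J y * J z) = 2 * trace K U (y * z))
    (hpos : ∀ D, D * D = 1 → finrank K (Pos (J D) ε) = rkk (1 + D))
    (hrk : ∀ y D, rk (ε * ((1 + J D) * J y * (1 - J D))) = rkk ((1 + D) * y * (1 - D)))
    (ne : ε ≠ 0) (ne' : 1 - ε ≠ 0)
    (L : Submodule K (End K U)) (S : Set (End K U)) (D₀ : End K U) (p q : ℕ)
    (hbr : ∀ y ∈ L, ∀ z ∈ L, y * z - z * y ∈ L) (hS : ∀ D ∈ S, D ∈ L ∧ D * D = 1)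
    (hgen : ∀ L' : Submodule K (End K U), S ⊆ L' → (∀ y ∈ L', ∀ z ∈ L', y * z - z * y ∈ L') →
      L ≤ L')
    (hirr : ∀ W : Submodule K U, (∀ y ∈ L, ∀ w ∈ W, y w ∈ W) → W = ⊥ ∨ W = ⊤)
    (hcom : ∀ c : End K V, (∀ y ∈ L, c * J y = J y * c) → ∃ a b : K, c = a • ε + b • (1 - ε))
    (cred : ∀ M : Submodule K V, (∀ y ∈ L, ∀ w ∈ M, J y w ∈ M) →
      ∃ π : End K V, (∀ y ∈ L, π * J y = J y * π) ∧ (∀ w, π w ∈ M) ∧ ∀ w ∈ M, π w = w)
    (hD₀ : D₀ ∈ S) (hp : rkk (1 + D₀) = p) (hq : rkk (1 - D₀) = q) (hp0 : 0 < p) (hq0 : 0 < q)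
    (hgcd : ∀ D ∈ S, 0 < rkk (1 + D) → 0 < rkk (1 - D) →
      ¬(p + q) ∣ Nat.gcd p q * Nat.gcd (rkk (1 + D)) (rkk (1 - D)))
    (hcase : (p ≠ q ∧ ∀ n a : ℕ, 1 < a → a < n → ¬(p = n.choose a ∧ q = n.choose (a - 1))) ∨
      (p = q ∧ (∀ m : ℕ, 1 ≤ m → p ≠ 2 ^ m) ∧ ∀ D ∈ S, rkk (1 + D) = rkk (1 - D))) :
    ∃ N ∈ L, D₀ * N = N ∧ N * D₀ = -N ∧ rkk N = 1 := by
  have hneg : ∀ D, D * D = 1 → finrank K (Pos (-J D) ε) = rkk (1 - D) := by
    intro D hD
    rw [← map_neg, hpos (-D) (by rw [neg_mul_neg, hD]), ← sub_eq_add_neg]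
  have hgen1 : ∀ L' : Submodule K (End K V), (∀ D ∈ S, J D ∈ L') →
      (∀ y ∈ L', ∀ z ∈ L', y * z - z * y ∈ L') → L.map J ≤ L' := by
    intro L' h1 h2
    rintro _ ⟨y, hy, rfl⟩
    refine hgen (L'.comap J) (fun D hD => h1 D hD) (fun a ha b hb => ?_) hy
    rw [Submodule.mem_comap, J_br]
    exact h2 _ ha _ hb
  have h0 : Setup (L.map J) (adj ω hnd) := by
    refine ⟨?_, fun a b => ?_, adj_rk hnd, ?_, ?_, fun L' h1 h2 => ?_, fun M hM => ?_⟩
    · rintro _ ⟨y, hy, rfl⟩ _ ⟨z, hz, rfl⟩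
      rw [← J_br]
      exact ⟨_, hbr y hy z hz, rfl⟩
    · refine adj_unique hnd fun v w => ?_
      rw [Module.End.mul_apply, adj_spec hnd a, adj_spec hnd b, Module.End.mul_apply]
    · rintro _ ⟨y, hy, rfl⟩
      exact adj_unique hnd (ω_J y)
    · rintro _ ⟨y, hy, rfl⟩ h
      have h1 : ∀ z ∈ L, trace K U (y * z) = 0 := by
        intro z hz
        have h2 := h _ ⟨z, hz, rfl⟩
        rw [tr] at h2
        exact (mul_eq_zero.1 h2).resolve_left two_ne_zero
      have hss : Pool.Agent.W516.KC.Semi L := by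
        intro W hW
        rcases hirr W hW with h2 | h2
        · exact ⟨⊤, fun _ _ _ _ => trivial, by rw [h2]; exact isCompl_bot_top⟩
        · refine ⟨⊥, fun X _ u hu => ?_, by rw [h2]; exact isCompl_top_bot⟩
          rw [Submodule.mem_bot] at hu ⊢
          rw [hu, map_zero]
      have h2 := Pool.Agent.W516.KC.central_of_trace L hss hbr hy h1
      obtain ⟨s, hs⟩ := schur L hirr y fun z hz => (h2 z hz).symm
      have h3 := h1 y hy
      rw [hs, smul_mul_smul_comm, one_mul, map_smul, LinearMap.trace_one, smul_eq_mul] at h3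
      have h4 : (finrank K U : K) ≠ 0 := by
        rw [Nat.cast_ne_zero]
        exact (Module.finrank_pos).ne'
      have h5 : s = 0 := by
        have h6 := (mul_eq_zero.1 h3).resolve_right h4
        exact mul_self_eq_zero.1 h6
      rw [hs, h5, zero_smul, map_zero]
    · exact hgen1 L' (fun D hD => h1 _ ⟨D, (hS D hD).1, rfl⟩ (J_sq D (hS D hD).2)) h2
    · obtain ⟨π, k1, k2, k3⟩ := cred M fun y hy w hw => hM _ ⟨y, hy, rfl⟩ w hw
      refine ⟨π, ?_, k2, k3⟩
      rintro _ ⟨y, hy, rfl⟩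
      exact k1 y hy
  have b0 : Blk0 (L.map J) (adj ω hnd) ε := by
    refine ⟨ε_idem, ?_, adj_unique hnd fun v w => rfl, adj_unique hnd ω_ε, fun c hc => ?_, ne,
      ne'⟩
    · rintro _ ⟨y, hy, rfl⟩
      exact ε_comm y
    · exact hcom c fun y hy => hc _ ⟨y, hy, rfl⟩
  obtain ⟨c, hc, hr⟩ := rank_one_gcd Pool.Agent.Y442.G.spin Pool.Agent.Y185.G.self h0 b0
    (adj_trace hnd) (S := J '' S)
    (by
      rintro _ ⟨D, hD, rfl⟩
      exact ⟨⟨D, (hS D hD).1, rfl⟩, J_sq D (hS D hD).2⟩)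
    (fun L' h1 h2 => hgen1 L' (fun D hD => h1 ⟨D, hD, rfl⟩) h2) (D₀ := J D₀) ⟨D₀, hD₀, rfl⟩
    ((hpos D₀ (hS D₀ hD₀).2).trans hp) ((hneg D₀ (hS D₀ hD₀).2).trans hq) hp0 hq0
    (by
      rintro _ ⟨D, hD, rfl⟩
      rw [hpos D (hS D hD).2, hneg D (hS D hD).2]
      exact hgcd D hD)
    (by
      rcases hcase with h1 | ⟨h1, h2, h3⟩
      · exact Or.inl h1
      · refine Or.inr ⟨h1, h2, ?_⟩
        rintro _ ⟨D, hD, rfl⟩
        rw [hpos D (hS D hD).2, hneg D (hS D hD).2]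
        exact h3 D hD)
  obtain ⟨hcG, hc1, hc2⟩ := hc
  obtain ⟨_, ⟨y, hy, rfl⟩, t, hct⟩ := exists_gp hcG
  have hD2 : D₀ * D₀ = 1 := (hS D₀ hD₀).2
  have hDL : D₀ ∈ L := (hS D₀ hD₀).1
  have hE2 : J D₀ * J D₀ = 1 := J_sq D₀ hD2
  have hEε : ε * J D₀ = J D₀ * ε := ε_comm D₀
  -- the lift
  have h4c : (4 : K) • c = (1 + J D₀) * J y * (1 - J D₀) := by
    have e1 : (1 + J D₀) * c * (1 - J D₀) = (4 : K) • c := by
      have e2 : (1 + J D₀) * c * (1 - J D₀) =
          c + J D₀ * c - c * J D₀ - J D₀ * c * J D₀ := by noncomm_ring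
      rw [e2, hc1, hc2]
      have e3 : ∀ x : End K V, (4 : K) • x = x + x + x + x := by
        intro x
        rw [show (4 : K) = 1 + 1 + 1 + 1 by norm_num, add_smul, add_smul, add_smul, one_smul]
      rw [e3]
      abel
    have e4 : (1 + J D₀) * (ε - (1 - ε)) * (1 - J D₀) = 0 := by
      have e5 : (1 + J D₀) * (ε - (1 - ε)) = (ε - (1 - ε)) * (1 + J D₀) := by
        simp only [mul_sub, sub_mul, add_mul, mul_add, one_mul, mul_one, hEε]
        abel
      rw [e5, mul_assoc]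
      have e6 : (1 + J D₀) * (1 - J D₀) = 1 - J D₀ * J D₀ := by noncomm_ring
      rw [e6, hE2, sub_self, mul_zero]
    rw [← e1, hct, mul_add, add_mul, mul_smul_comm, smul_mul_assoc, e4, smul_zero, add_zero]
  refine ⟨(1 + D₀) * y * (1 - D₀), ?_, ?_, ?_, ?_⟩
  · rw [up_eq, invol_eq hD2]
    have h1 := hbr _ hDL _ hy
    have h2 := hbr _ hDL _ h1
    exact L.sub_mem (L.add_mem hy h1) (L.sub_mem hy (L.smul_mem _ h2))
  · rw [← mul_assoc, ← mul_assoc, mul_add, mul_one, hD2, add_comm D₀ 1]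
  · rw [mul_assoc, sub_mul, one_mul, hD2, ← neg_sub, mul_neg]
  · rw [← hrk, ← h4c, mul_smul_comm]
    change finrank K (LinearMap.range ((4 : K) • (ε * c))) = 1
    rw [LinearMap.range_smul _ _ (by norm_num)]
    exact hr

/-- **Rank one elements of irreducible Lie algebras without invariant bilinear forms.** -/
theorem duo : Pool.Agent.Y224.OD.S_DUO := by
  intro K U _ _ _ _ _ _ L S D₀ p q hbr hS hgen hirr hB hD₀ hp hq hp0 hq0 hgcd hcase
  have hnt : Nontrivial U := by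
    by_contra hcon
    rw [not_nontrivial_iff_subsingleton] at hcon
    have h1 : rkk (1 + D₀) = 0 := by
      unfold rkk
      have : Subsingleton (LinearMap.range (1 + D₀)) := inferInstance
      exact Module.finrank_zero_of_subsingleton
    omega
  have hpos : ∀ D : End K U, D * D = 1 →
      finrank K (Pos (jj D) (ee : End K (VV K U))) = rkk (1 + D) := by
    intro D hD
    have h1 : Pos (jj D) (ee : End K (VV K U)) =
        (LinearMap.range (1 + D)).map (il : U →ₗ[K] VV K U) := by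
      ext v
      constructor
      · rintro ⟨hv1, hv2⟩
        refine ⟨fs v, ⟨(2 : K)⁻¹ • fs v, ?_⟩, hv2⟩
        have h3 : D (fs v) = fs v := by
          have h4 := congrArg fs hv1
          rwa [jj1] at h4
        rw [LinearMap.add_apply, Module.End.one_apply, map_smul, h3, ← smul_add, ← two_smul K,
          smul_smul, inv_mul_cancel₀ two_ne_zero, one_smul]
      · rintro ⟨_, ⟨u, rfl⟩, rfl⟩
        refine ⟨?_, rfl⟩
        have h3 : D (D u) = u := LinearMap.congr_fun hD u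
        rw [jj_l, LinearMap.add_apply, Module.End.one_apply, map_add, h3, add_comm u]
    rw [h1, map_inl_finrank]
    rfl
  have hrk : ∀ y D : End K U, rk ((ee : End K (VV K U)) *
      ((1 + jj D) * jj y * (1 - jj D))) = rkk ((1 + D) * y * (1 - D)) := by
    intro y D
    have h1 : (ee : End K (VV K U)) * ((1 + jj D) * jj y * (1 - jj D)) =
        il ∘ₗ ((1 + D) * y * (1 - D)) ∘ₗ fs := by
      refine hext (fun v => ?_) fun v u => rfl
      rw [Module.End.mul_apply, ee1, Module.End.mul_apply, Module.End.mul_apply,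
        LinearMap.add_apply, LinearMap.sub_apply, Module.End.one_apply, Module.End.one_apply]
      change _ = y (fs v - D (fs v)) + D (y (fs v - D (fs v)))
      simp only [map_add, map_sub, jj1]
    rw [h1]
    exact rk_prod ((1 + D) * y * (1 - D))
  refine duo_abs jj om ee om_nd jj_br jj_sq ee_idem ee_comm om_jj om_ee trace_jj
    hpos hrk ?_ ?_ L S D₀ p q hbr hS hgen hirr (com hirr hB) (cred hirr hB) hD₀ hp hq hp0 hq0 hgcd
    hcase
  · intro h
    obtain ⟨u, hu⟩ := exists_ne (0 : U)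
    apply hu
    have h1 := congrArg fs (LinearMap.congr_fun h (il u))
    rwa [ee1, fs_il, LinearMap.zero_apply, map_zero] at h1
  · intro h
    obtain ⟨u, hu⟩ := exists_ne (0 : U)
    apply hu
    refine (Module.forall_dual_apply_eq_zero_iff K u).1 fun f => ?_
    have h1 := congrArg sn (LinearMap.congr_fun h (ir f))
    rw [LinearMap.sub_apply, map_sub, ee2, Module.End.one_apply, sn_ir, sub_zero,
      LinearMap.zero_apply, map_zero] at h1
    rw [h1, LinearMap.zero_apply]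

end Pool.Agent.Y71.OD2
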